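import Pool.Agent.Lib.DAN.F.Fin2
import Pool.Agent.Lib.DAN.F.T2c

/-!
# The diameter of the alternating group is at most `exp (C (log n) ^ 3 / loglog n)`

There is a constant `C` such that for all `n ≥ 3`, all generating sets `S` of `A_n` and all
`r ≥ 1` the Cayley graph is connected and
`diam ≤ r * exp (C (log n) ^ 3 / max (loglog n) (log log b))`,
where `b` is the number of elements at distance at most `r` from the identity. For `r = 1` this
contains `diam (A_n) ≤ exp (C (log n) ^ 3 / loglog n)`.
-/

open Necf73648 MP731536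

namespace Pool.Agent.Results.MP_731536_al.DiameterBound

theorem result :
    ∃ C : ℝ, ∀ n : ℕ, 3 ≤ n → ∀ S : Set (alternatingGroup (Fin n)), Subgroup.closure S = ⊤ →
      ∀ r : ℕ, 1 ≤ r → (cayleyGraph S).Connected ∧
        ((cayleyGraph S).diam : ℝ) ≤
          r * Real.exp (C * (Real.log n ^ 3 / max (Real.log (Real.log n))
            (Real.log (Real.log
              ({g : alternatingGroup (Fin n) | (cayleyGraph S).dist 1 g ≤ r}.ncard : ℝ))))) := by
  obtain ⟨C, hC⟩ := DAN.diam_bound2 DAN.t2
  exact ⟨C, fun n hn S hS r hr => ⟨cayley_connected hS, hC n hn S hS r hr⟩⟩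

end Pool.Agent.Results.MP_731536_al.DiameterBound
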