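import Pool.Agent.Lib.MP_731536_al.Final

/-!
# Growth to `|A_n| ^ ε` implies polynomial diameter

For every `ε > 0` there is `C` such that for all `n`, all generating sets `S` of the alternating
group `A_n` and all `r`: if the ball of radius `r` in the Cayley graph has at least `|A_n| ^ ε`
elements, then the diameter of the Cayley graph is at most `r * n ^ C`. For `r = 1`: the
conjecture of Babai and Seress holds for all generating sets with `|S| ≥ |A_n| ^ ε`.
-/

open Necf73648 MP731536

namespace Pool.Agent.Results.MP_731536_al.LargeSets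

theorem result (ε : ℝ) (hε : 0 < ε) :
    ∃ C : ℕ, ∀ (n : ℕ) (S : Set (alternatingGroup (Fin n))), Subgroup.closure S = ⊤ →
      ∀ r : ℕ, (Fintype.card (alternatingGroup (Fin n)) : ℝ) ^ ε ≤
          ({g : alternatingGroup (Fin n) | (cayleyGraph S).dist 1 g ≤ r}.ncard : ℝ) →
        (cayleyGraph S).Connected ∧ (cayleyGraph S).diam ≤ r * n ^ C := by
  obtain ⟨C, hC⟩ := core ε hε
  exact ⟨C, fun n S hS r hr => ⟨cayley_connected hS, hC n S hS r hr⟩⟩

end Pool.Agent.Results.MP_731536_al.LargeSets
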